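import Mathlib
import Pool.Agent.H42.WidthProof
set_option autoImplicit false
open MeasureTheory Set Pool.Agent.H42.Width

namespace Pool.Agent.Results.MP_651bcb_an.WidthFree

universe u v

/-- For every countable nonamenable group the width of the free pmp actions on the standard
atomless probability space is the continuum, and the supremum is attained. -/
theorem result (Γ : Type u) [Group Γ] [Countable Γ] (hΓ : ¬ Amenable Γ)
    (X : Type v) [MeasurableSpace X] [StandardBorelSpace X] (μ : Measure X)
    [IsProbabilityMeasure μ] [NullSingletonClass μ] :
    width Γ μ = Cardinal.continuum ∧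
      ∃ S : Set (PMPAction Γ μ), IsFreeAntichain S ∧ Cardinal.mk S = Cardinal.continuum :=
  main Γ hΓ X μ

end Pool.Agent.Results.MP_651bcb_an.WidthFree
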